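import Pool.Agent.R424.FD.EllC

/-!
# MP_130685_nt: Zilber-Pink in `Y(1)^n` for all but finitely many members of families over an elliptic
curve with `m + 2` degenerate members

The Shimura variety `Y(1)^n` is identified with `ℂ^n` by the elliptic modular function
`jj = j = E₄³ / Δ`.

**The base** (as in the starting file `FamiliesOverEllipticCurves`). Let `a, b` be algebraic numbers
with `4 a³ + 27 b² ≠ 0` and let `Curve a b` be the set of the affine points `P = (x, y)` of the elliptic
curve `y² = x³ + a x + b`. At a point `Q` of it the function `loc Q`, which is `x - x(Q)` if
`y(Q) ≠ 0` and `y` if `y(Q) = 0`, is a local parameter, and a function `c ∈ ℂ[x, y]` has the order `e`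
at `Q` if `c = loc^e g / h` on the curve with polynomials `g, h` in `x, y` which do not vanish at `Q`
and whose coefficients are algebraic over a given countable field `K ⊂ ℂ` (`HasOrder`).

**Families.** We consider families of subsets `X_P` of `Y(1)^n` over the elliptic curve, given by
* a family `B_t ⊆ P^N` of projective algebraic sets, defined by forms `G k` with coefficients in
  `K[t]`, quotients `f_i = A_i / B_i` of forms of the same degree `d_i` with coefficients in `K[t]`,
  and a rational function `t = φ(P) = u(P) / v(P)` on the elliptic curve (so `B_t` can be a
  fixed variety, or the pullback by `φ` of any one-parameter family),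
* functions `s_i` integral over `K[j]`, `R_i (s_i, j) = 0` with `R_i` monic in the first variable
  (level one: `R_i = S - J`, `s_i = j`; in general modular functions of any level without poles
  in the upper half plane), and functions `c_i ∈ ℂ[x, y]` on the elliptic curve:
`X_P = {x | ∃ y ∈ B_t, ∃ s, ∀ i, R_i (s_i, x_i) = 0, c_i (P) s_i = A_i (y) / B_i (y), t = φ(P)}`
(`member`), the image of a family of subvarieties of a product of modular curves of any levels. For
example: the translates `(c_1(P)⁻¹ y_1, …, c_n(P)⁻¹ y_n)`, `y ∈ V`, of a fixed affine variety `V` by
the values of `n` functions on the elliptic curve.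

Let `Q_0, …, Q_L` be points of the elliptic curve with algebraic coordinates, `v(Q_l) ≠ 0`. The family
degenerates at the `Q_l` in the following sense:
* no point of `B_t` lies on `m + 1` of the divisors of the `f_i`, for `t = φ(Q_l)`, and
* the `c_i` have zeros at `Q_l`, of orders `e_li > 0`, and these orders are independent modulo squares
  (`Independent`): if `A_0, …, A_L` are sets of coordinates with an even number of elements, not all
  empty, and every coordinate is in an even number of them, then `q ∏_l ∏_{i ∈ A_l} e_li` is not a
  square. Here `q` is any positive integer which is at most `T ^ (2 ∑ |A_l|)` and has no prime factors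
  larger than `T`, where `T` bounds the degrees of the `R_i` (`T = 1` and `q = 1` for level one). For
  instance the `e_li` can be different primes larger than `T`.

**Theorem.** For every number field `E` and for all but finitely many of the points `P` of the
elliptic curve over `E` the excess of the intersections of `X_P` with special subvarieties `Z` of
`Y(1)^n` is at most `m / L` (`SmallExcess`): every irreducible closed subset of `X_P ∩ Z` has dimension
at most `dim Z + m - n + m / L`, and the same bound holds for the transcendence degrees of the points of
`X_P ∩ Z` over `K`. So `X_P` has no point at all on special subvarieties of codimension larger than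
`m + m / L`. For `L > m` it has no atypical intersection with special subvarieties (`NoAtypical`), so
`X_P` has no (maximal) atypical subvariety. The constant coordinates of `Z` can be special points or
integral over the ring generated by any given finite set `Γ` of numbers algebraic over `K`.

So `m + 2` degenerate members suffice for families of subvarieties of dimension `m`, for all `n` (three
for curves), while the starting file needs `n (n - 1) / 2 + 1` (and `MP_e573c6_ag`'s
`CurvesOverEllipticCurves` four for curves); two degenerate members suffice for the statement that
`X_P` has no point on special subvarieties of codimension larger than `2 m`. The condition on the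
orders is more restrictive than in the starting file for the same number of members.

The proof combines Siegel's theorem over number fields (`near_all` of the starting file: all but
finitely many points `P` over `E` are near to `Q_l` at some place with a large residue characteristic,
for all `l`) with a local criterion at `L + 1` places. The valuations of the large coordinates in one
class of `Z` differ by the products of the determinants `d_i d_j` up to squares. Linear algebra over
the field with two elements, in the space of the functions on the coordinates with the sum zero on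
every class, gives a product of orders in which these determinants cancel, and which is a square.
-/

set_option autoImplicit false

namespace Pool.Agent.Results.MP_130685_nt.FewMembersOverEllipticCurves

open MvPolynomial Pool.Agent.Y199.SG.ZPZ
open Pool.Agent.R424.FD (SmallExcess coreEll)
open Pool.Agent.Y199.SG.ZPY (SpecialVariety NoAtypical evalAt OnB InGeneralPosition valueAt)

/-- The orders at the `L + 1` points are positive and independent modulo squares: if `A l` are sets
of coordinates with an even number of elements, not all empty, and every coordinate lies in an even
number of them, then `q ∏_l ∏_{i ∈ A l} e l i` is not a square, for any positive integer `q` which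
is at most `T` to the power `2 ∑ |A l|` and has no prime factor larger than `T`. -/
def Independent {n : ℕ} (L T : ℕ) (e : Fin (L + 1) → Fin n → ℕ) : Prop :=
  (∀ l i, 0 < e l i) ∧ ∀ A : Fin (L + 1) → Finset (Fin n),
    (∃ l, (A l).Nonempty) → (∀ l, Even (A l).card) →
    (∀ i, Even (Finset.univ.filter fun l => i ∈ A l).card) →
    ∀ q, 0 < q → (∀ p, p.Prime → p ∣ q → p ≤ T) → q ≤ T ^ (2 * ∑ l, (A l).card) →
      ¬ IsSquare (q * ∏ l, ∏ i ∈ A l, e l i)

/-- **Zilber-Pink in `Y(1)^n` for families over an elliptic curve with few degenerate members.** -/
theorem result (K : Subfield ℂ) [Countable K] (κ : Type) [Finite κ] (N n m L T : ℕ)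
    (G : κ → MvPolynomial (Fin (N + 1)) (Polynomial K)) (hG : ∀ k, ∃ e, (G k).IsHomogeneous e)
    (A B : Fin n → MvPolynomial (Fin (N + 1)) (Polynomial K)) (δ : Fin n → ℕ)
    (hA : ∀ i, (A i).IsHomogeneous (δ i)) (hB : ∀ i, (B i).IsHomogeneous (δ i))
    (R : Fin n → Polynomial (Polynomial K)) (hR : ∀ i, (R i).Monic)
    (hT : ∀ i u w, ((R i).coeff u).coeff w ≠ 0 → u ≤ T ∧ w ≤ T)
    (a b : ℂ) (ha : IsAlgebraic ℚ a) (hb : IsAlgebraic ℚ b) (hab : 4 * a ^ 3 + 27 * b ^ 2 ≠ 0)
    (u v : MvPolynomial (Fin 2) ℂ) (hu : ∀ d, IsAlgebraic K (u.coeff d))
    (hv : ∀ d, IsAlgebraic K (v.coeff d))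
    (Q : Fin (L + 1) → Fin 2 → ℂ) (hQ : ∀ l, Q l ∈ Curve a b)
    (hQa : ∀ l i, IsAlgebraic ℚ (Q l i)) (hvQ : ∀ l, eval (Q l) v ≠ 0)
    (c : Fin n → MvPolynomial (Fin 2) ℂ) (e : Fin (L + 1) → Fin n → ℕ)
    (he : ∀ l i, HasOrder K a b (Q l) (c i) (e l i)) (hind : Independent L T e)
    (hpos : ∀ l, InGeneralPosition (value u v (Q l)) m G A B)
    (Γ : Finset ℂ) (hΓ : ∀ γ ∈ Γ, IsAlgebraic K γ) (E : IntermediateField ℚ ℂ)
    [FiniteDimensional ℚ E] :
    {P : Fin 2 → ℂ | P ∈ Curve a b ∧ (∀ i, P i ∈ E) ∧
      ¬ (SmallExcess (algebraMap (Algebra.adjoin ℤ (Γ : Set ℂ)) ℂ) K L m
          (member (value u v P) (fun i => eval P (c i)) G A B R) ∧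
        (m < L → NoAtypical (algebraMap (Algebra.adjoin ℤ (Γ : Set ℂ)) ℂ) K m
          (member (value u v P) (fun i => eval P (c i)) G A B R)))}.Finite := by
  obtain ⟨W, hW⟩ := coreEll K κ N n m L T G hG A B δ hA hB R hR hT a b
    ha.isIntegral.tower_top.isAlgebraic u v hu hv hb.isIntegral.tower_top.isAlgebraic Q hQ
    (fun l i => (hQa l i).isIntegral.tower_top.isAlgebraic) hvQ c e he hind.1 hind.2 hpos Γ hΓ
  refine (near_all a b ha hb hab Q hQ hQa W E).subset ?_
  rintro P ⟨hP, hPE, hbad⟩
  exact ⟨hP, hPE, fun hnear => hbad (hW P hP (fun i => alg_of_mem K E _ (hPE i)) hnear)⟩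

end Pool.Agent.Results.MP_130685_nt.FewMembersOverEllipticCurves
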