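import Pool.Agent.R870.NY.Main

/-!
# MP_130685_nt: 100 % of all systems of polynomials with integral coefficients have only typical
intersections with the special subvarieties of `Y(1)^n` of small complexity

Let `A_1, …, A_k` be arbitrary finite sets of exponents in `ℕ^n`, all containing `0`, `N = ∑ |A_j|`,
and for an integral vector `c` of size at most `H` (there are `(2 H + 1) ^ N` of them) let `V_c` be
the closed subset of `Y(1)^n = ℂ^n` defined by the `k` polynomials `f_j = ∑_{α ∈ A_j} c_jα x ^ α`.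

We show that for all but `C Δ ^ (17 n) (2 H + 1) ^ (N - 1)` of the `c` all components of `V_c` have
dimension `n - k` (or `V_c` is empty), and `V_c` has only typical intersections with all special
subvarieties `Z` of complexity at most `Δ`: every irreducible subset of `V_c ∩ Z` has dimension at
most `dim Z - k`; in particular `V_c` has no point on the `Z` of dimension less than `k`. So 100 % of
the `V_c` have no atypical subvarieties for the `Z` of complexity up to `H ^ θ`, `θ < 1 / (17 n)`.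

The same holds for the subvarieties `Z` which are defined by isogenies of degree at most `Δ` and
constant coordinates in an arbitrary finite set `G` of complex numbers, with at most
`C (|G| + 1) ^ n Δ ^ (14 n) (2 H + 1) ^ (N - 1)` exceptions.
-/

set_option autoImplicit false

namespace Pool.Agent.Results.MP_130685_nt.RandomSystems

open Pool.Agent.R870.NY UpperHalfPlane H294ZP
open Pool.Agent.R870.RZ (idealOf dim)

/-- All intersections of `V_c` (given by `k` equations) with the special subvariety `Z` of dimension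
`r` are typical: the irreducible subsets of `V_c ∩ Z` have dimension at most `r - k`. -/
def TypicalOn {n k r : ℕ} (A : Fin k → Finset (Fin n → ℕ)) (c : Coeff A → ℤ)
    (Z : Special n r) : Prop :=
  ∀ W : Set (Fin n → ℂ), W ⊆ system A c → W ⊆ Z.locus → (idealOf W).IsPrime →
    dim W + (k : Cardinal) ≤ (r : Cardinal)

/-- All irreducible subsets of `V_c` have dimension at most `n - k`. -/
def ExpectedDim {n k : ℕ} (A : Fin k → Finset (Fin n → ℕ)) (c : Coeff A → ℤ) : Prop :=
  ∀ W : Set (Fin n → ℂ), W ⊆ system A c → (idealOf W).IsPrime →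
    dim W + (k : Cardinal) ≤ (n : Cardinal)

/-- The number of special points of bounded complexity. -/
theorem special_points (Δ : ℕ) : ∃ G : Finset ℂ, G.card ≤ (2 * Δ + 1) ^ 3 ∧
    ∀ t : ℂ, SpecialPoint Δ t → t ∈ G := by
  classical
  let bx : Finset (ℤ × ℤ × ℤ) := Finset.Icc (-(Δ : ℤ)) Δ ×ˢ Finset.Icc (-(Δ : ℤ)) Δ ×ˢ
    Finset.Icc (-(Δ : ℤ)) Δ
  let F : ℤ × ℤ × ℤ → ℂ := fun p =>
    if h : ∃ τ : ℍ, (p.1 : ℂ) * (τ : ℂ) ^ 2 + p.2.1 * τ + p.2.2 = 0 then jj h.choose else 0
  refine ⟨bx.image F, ?_, ?_⟩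
  · refine Finset.card_image_le.trans ?_
    simp only [bx, Finset.card_product, Int.card_Icc]
    have h1 : ((Δ : ℤ) + 1 - -(Δ : ℤ)).toNat = 2 * Δ + 1 := by omega
    rw [h1]
    exact le_of_eq (by ring)
  · rintro t ⟨τ, a, b, c, ha, haΔ, hbΔ, hcΔ, hq, rfl⟩
    rw [Finset.mem_image]
    refine ⟨(a, b, c), ?_, ?_⟩
    · simp only [bx, Finset.mem_product, Finset.mem_Icc]
      exact ⟨abs_le.1 haΔ, abs_le.1 hbΔ, abs_le.1 hcΔ⟩
    · have h : ∃ τ : ℍ, (((a, b, c) : ℤ × ℤ × ℤ).1 : ℂ) * (τ : ℂ) ^ 2 +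
          ((a, b, c) : ℤ × ℤ × ℤ).2.1 * τ + ((a, b, c) : ℤ × ℤ × ℤ).2.2 = 0 := ⟨τ, hq⟩
      have h1 : F (a, b, c) = jj h.choose := dif_pos h
      rw [h1]
      have h2 : (a : ℂ) * (h.choose : ℂ) ^ 2 + b * h.choose + c = 0 := h.choose_spec
      congr 1
      obtain ⟨σ, hσ⟩ : ∃ σ, σ = h.choose := ⟨_, rfl⟩
      rw [← hσ] at h2 ⊢
      have ha' : (a : ℂ) ≠ 0 := by exact_mod_cast ha
      have h3 : ((σ : ℂ) - τ) * ((a : ℂ) * ((σ : ℂ) + τ) + b) = 0 := by
        linear_combination h2 - hq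
      rcases mul_eq_zero.1 h3 with h4 | h4
      · exact UpperHalfPlane.ext (sub_eq_zero.1 h4)
      · exfalso
        have h5 := congrArg Complex.im h4
        have h6 : (a : ℝ) * (σ.im + τ.im) = 0 := by
          simpa using h5
        rcases mul_eq_zero.1 h6 with h7 | h7
        · exact ha (by exact_mod_cast h7)
        · have := σ.im_pos
          have := τ.im_pos
          linarith

/-- Let `A_1, …, A_k` be finite subsets of `ℕ^n` which contain `0`, and `N = ∑ |A_j|`. There is a `C`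
such that for all `H` and all `Δ ≥ 1`:

(1) for all but `C Δ ^ (17 n) (2 H + 1) ^ (N - 1)` integral vectors `c` of size at most `H` the
components of `V_c` have dimension at most `n - k` and `V_c` has only typical intersections with
the special subvarieties `Z` which are given by matrices of determinant at most `Δ` and special
points of complexity at most `Δ` as constants;

(2) for every finite set `G` of complex numbers, for all but
`C (|G| + 1) ^ n Δ ^ (14 n) (2 H + 1) ^ (N - 1)` of the `c` the same holds for the `Z` which are given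
by matrices of determinant at most `Δ` and constants in `G`. -/
theorem result {n k : ℕ} (A : Fin k → Finset (Fin n → ℕ)) (hA : ∀ j, 0 ∈ A j) :
    ∃ C : ℕ, ∀ H Δ : ℕ, 1 ≤ Δ →
      (∃ E : Finset (Coeff A → ℤ),
        E.card * (2 * H + 1) ≤ C * Δ ^ (17 * n) * (2 * H + 1) ^ ∑ j, (A j).card ∧
        ∀ c : Coeff A → ℤ, (∀ x, |c x| ≤ H) → c ∉ E → ExpectedDim A c ∧
          ∀ (r : ℕ) (Z : Special n r), (∀ i, (Z.mat i).det ≤ Δ) →
            (∀ i, Z.cls i = none → SpecialPoint Δ (Z.const i)) → TypicalOn A c Z) ∧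
      ∀ G : Finset ℂ, ∃ E : Finset (Coeff A → ℤ),
        E.card * (2 * H + 1) ≤
          C * (G.card + 1) ^ n * Δ ^ (14 * n) * (2 * H + 1) ^ ∑ j, (A j).card ∧
        ∀ c : Coeff A → ℤ, (∀ x, |c x| ≤ H) → c ∉ E → ExpectedDim A c ∧
          ∀ (r : ℕ) (Z : Special n r), (∀ i, (Z.mat i).det ≤ Δ) →
            (∀ i, Z.cls i = none → Z.const i ∈ G) → TypicalOn A c Z := by
  obtain ⟨C, hC⟩ := main A hA
  have hN : Fintype.card (Coeff A) = ∑ j, (A j).card := by
    rw [Fintype.card_sigma]
    exact Finset.sum_congr rfl fun j _ => Fintype.card_coe _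
  rw [hN] at hC
  refine ⟨C * 28 ^ n, fun H Δ hΔ => ⟨?_, fun G => ?_⟩⟩
  · obtain ⟨G, hG, hG'⟩ := special_points Δ
    obtain ⟨E, hE, hE'⟩ := hC H Δ hΔ G
    refine ⟨E, hE.trans ?_, fun c hc hcE => ⟨(hE' c hc hcE).1, fun r Z hZ ht =>
      (hE' c hc hcE).2 r Z hZ fun i hi => hG' _ (ht i hi)⟩⟩
    refine Nat.mul_le_mul_right _ ?_
    have h1 : G.card + 1 ≤ 28 * Δ ^ 3 := by
      have h2 : (2 * Δ + 1) ^ 3 ≤ (3 * Δ) ^ 3 := Nat.pow_le_pow_left (by omega) 3
      have h3 : 1 ≤ Δ ^ 3 := Nat.one_le_pow _ _ hΔ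
      have h4 : (3 * Δ) ^ 3 = 27 * Δ ^ 3 := by ring
      omega
    calc C * (G.card + 1) ^ n * Δ ^ (14 * n) ≤ C * (28 * Δ ^ 3) ^ n * Δ ^ (14 * n) :=
          Nat.mul_le_mul_right _ (Nat.mul_le_mul_left _ (Nat.pow_le_pow_left h1 n))
      _ = C * 28 ^ n * Δ ^ (17 * n) := by
          rw [mul_pow, ← pow_mul, show 17 * n = 3 * n + 14 * n by ring, pow_add]
          ring
  · obtain ⟨E, hE, hE'⟩ := hC H Δ hΔ G
    refine ⟨E, hE.trans ?_, hE'⟩
    refine Nat.mul_le_mul_right _ (Nat.mul_le_mul_right _ (Nat.mul_le_mul_right _ ?_))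
    exact Nat.le_mul_of_pos_right _ (by positivity)

end Pool.Agent.Results.MP_130685_nt.RandomSystems
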