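import Pool.Agent.Results.MP_130685_nt.RandomSystems
import Pool.Agent.R482.ST.Vec

/-!
# All systems of polynomials near the vectors of a sequence have typical intersections with the special subvarieties only

Let `f_k`, `k = 0, 1, 2, …`, be positive functions on `(a₀, ∞)`, `a₀ ≥ 0`, such that `f_k(t) / t` is nondecreasing, and such
that the sequence `f_k(t)` has exponent of convergence at most `τ` for each `t > a₀`: for instance `f_k(t) = v_k t`
(dilatations; `τ` the exponent of convergence of `v_k > 0`), `f_k(t) = t ^ (v_k)` for exponents `v_k ≥ 1` (`τ = 0`), or the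
orbits `f_k(t) = g (g (⋯ g (t)))` of any map `g` with `g(t) > t` and `g(t) / t` nondecreasing (`τ = 0`).
Let `V_c` be the closed subset of `Y(1)^n = ℂ^n` given by `k ≥ 1` polynomials with given supports containing `0` with `m`
monomials altogether and integral coefficients `c`. Let `κ > 0` and `θ < 1`. For all vectors `u` in `ℝ^m` (maximum norm),
`‖u‖ > a₀`, outside a set of Hausdorff dimension at most `(m - 1 + 17 n κ + τ) / (1 - θ)` and all constants, for all but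
finitely many `l`: ALL `V_c` with `c` near `(r / ‖u‖) u`, `r = f_l(‖u‖)`, have the expected dimension and only typical
intersections with the special subvarieties of complexity at most `r ^ κ`; and the same, with `14 n κ` in place of `17 n κ`,
for the weakly special subvarieties defined by isogenies of degree at most `r ^ κ` and constants in a given countable set
(such as the set of all algebraic numbers).
-/

set_option autoImplicit false

namespace Pool.Agent.Results.MP_130685_nt.StarshapedSystems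

open RandomSystems (TypicalOn ExpectedDim)
open Pool.Agent.R870.NY (Coeff Special SpecialPoint)

/-- the functions `f n` are positive on `(a, ∞)`, `a ≥ 0`, and `f n x / x` is nondecreasing there -/
def Starshaped (a : ℝ) (f : ℕ → ℝ → ℝ) : Prop :=
  0 ≤ a ∧ ∀ n : ℕ, ∀ x y : ℝ, a < x → x ≤ y → 0 < f n x ∧ f n x / x ≤ f n y / y

/-- for each `x > a` the exponent of convergence of the sequence `f n x` is at most `τ` -/
def ExpLe (a : ℝ) (f : ℕ → ℝ → ℝ) (τ : ℝ) : Prop :=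
  ∀ x : ℝ, a < x → ∀ t : ℝ, τ < t → Summable (fun n : ℕ => (f n x) ^ (-t))

/-- the components of `z` differ by at most `ρ` from those of `(g ‖u‖ / ‖u‖) u` -/
def Near {ι : Type} [Fintype ι] (g : ℝ → ℝ) (ρ : ℝ) (u : ι → ℝ) (z : ι → ℤ) : Prop :=
  ∀ i, |(z i : ℝ) - g ‖u‖ / ‖u‖ * u i| ≤ ρ

lemma special_mono {Δ Δ' : ℕ} (h : Δ ≤ Δ') {t : ℂ} (ht : SpecialPoint Δ t) : SpecialPoint Δ' t := by
  obtain ⟨τ, a, b, c, h0, h1, h2, h3, h4⟩ := ht
  have h' : (Δ : ℤ) ≤ Δ' := by exact_mod_cast h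
  exact ⟨τ, a, b, c, h0, h1.trans h', h2.trans h', h3.trans h', h4⟩

/-- **Theorem.** Let `A_1, …, A_k`, `k ≥ 1`, be finite sets of exponents in `ℕ^n` which contain `0`, `m = ∑ |A_j|`,
`κ > 0`, `f` starshaped functions on `(a₀, ∞)` of exponent of convergence at most `τ ≥ 0` and `θ < 1`. (1) There is a set `E`
of Hausdorff dimension at most `(m - 1 + 17 n κ + τ) / (1 - θ)` such that for each `u` outside `E`, `‖u‖ > a₀`, each `c` and
all but finitely many `l`, for ALL integral coefficient vectors `z` near `(r / ‖u‖) u`, `r = f_l(‖u‖)` (`Near`, with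
`c r ^ θ`): the components of `V_z` have dimension at most `n - k`, and for all `Δ ≤ r ^ κ` all intersections of `V_z` with the
special subvarieties given by matrices of determinant at most `Δ` and special points of complexity at most `Δ` are typical.
(2) For each countable set `G` of complex numbers there is a set `E` of Hausdorff dimension at most
`(m - 1 + 14 n κ + τ) / (1 - θ)` such that for each `u` outside `E`, `‖u‖ > a₀`, each finite subset `F` of `G`, each `c` and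
all but finitely many `l` the same holds for the special subvarieties given by matrices of determinant at most `Δ ≤ r ^ κ`
and constants in `F`.
The functions `v_n x`, `v_n > 0`, are starshaped on `(0, ∞)`, of exponent `τ` if `v` has exponent of convergence at most
`τ`; the functions `x ^ (v_n)`, `v_n ≥ 1`, are starshaped on `(1, ∞)`, of exponent `0` if the sums of `exp (-t v_n)` converge
for `t > 0`; and the iterates of a map `g` with `g(x) > x` for `x > a` and `g(x) / x` nondecreasing are starshaped on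
`(a, ∞)`, of exponent `0`. -/
theorem result :
    (∀ (n k : ℕ) (A : Fin k → Finset (Fin n → ℕ)), 1 ≤ k → (∀ j, 0 ∈ A j) → ∀ κ : ℝ, 0 < κ →
      ∀ (f : ℕ → ℝ → ℝ) (a₀ τ θ : ℝ), Starshaped a₀ f → 0 ≤ τ → ExpLe a₀ f τ → θ < 1 →
      (∃ E : Set (Coeff A → ℝ),
        dimH E ≤ ENNReal.ofReal ((((∑ j, (A j).card : ℕ) : ℝ) - 1 + κ * (17 * n) + τ) / (1 - θ)) ∧
        ∀ u : Coeff A → ℝ, a₀ < ‖u‖ → u ∉ E → ∀ c : ℝ, ∃ l₀ : ℕ, ∀ l : ℕ, l₀ ≤ l → ∀ z : Coeff A → ℤ,
          Near (f l) (c * (f l ‖u‖) ^ θ) u z → ExpectedDim A z ∧ ∀ Δ : ℕ, (Δ : ℝ) ≤ (f l ‖u‖) ^ κ →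
            ∀ (r : ℕ) (Z : Special n r), (∀ i, (Z.mat i).det ≤ Δ) →
              (∀ i, Z.cls i = none → SpecialPoint Δ (Z.const i)) → TypicalOn A z Z) ∧
      ∀ G : Set ℂ, G.Countable → ∃ E : Set (Coeff A → ℝ),
        dimH E ≤ ENNReal.ofReal ((((∑ j, (A j).card : ℕ) : ℝ) - 1 + κ * (14 * n) + τ) / (1 - θ)) ∧
        ∀ u : Coeff A → ℝ, a₀ < ‖u‖ → u ∉ E → ∀ F : Finset ℂ, (F : Set ℂ) ⊆ G → ∀ c : ℝ, ∃ l₀ : ℕ, ∀ l : ℕ, l₀ ≤ l →
          ∀ z : Coeff A → ℤ, Near (f l) (c * (f l ‖u‖) ^ θ) u z → ∀ Δ : ℕ, (Δ : ℝ) ≤ (f l ‖u‖) ^ κ →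
            ∀ (r : ℕ) (Z : Special n r), (∀ i, (Z.mat i).det ≤ Δ) →
              (∀ i, Z.cls i = none → Z.const i ∈ F) → TypicalOn A z Z) ∧
    (∀ (v : ℕ → ℝ) (τ : ℝ), (∀ n, 0 < v n) → (∀ t : ℝ, τ < t → Summable (fun n : ℕ => (v n) ^ (-t))) →
      Starshaped 0 (fun n x => v n * x) ∧ ExpLe 0 (fun n x => v n * x) τ) ∧
    (∀ v : ℕ → ℝ, (∀ n, 1 ≤ v n) → (∀ t : ℝ, 0 < t → Summable fun n : ℕ => Real.exp (-(t * v n))) →
      Starshaped 1 (fun n x => x ^ (v n)) ∧ ExpLe 1 (fun n x => x ^ (v n)) 0) ∧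
    (∀ (a : ℝ) (g : ℝ → ℝ), 0 ≤ a → (∀ x y : ℝ, a < x → x ≤ y → g x / x ≤ g y / y) → (∀ x : ℝ, a < x → x < g x) →
      Starshaped a (fun n x => g^[n] x) ∧ ExpLe a (fun n x => g^[n] x) 0) := by
  refine ⟨fun n k A hk hA κ hκ f a₀ τ θ hf hτ hv hθ => ?_, Pool.Agent.R482.ST.ex_mul, Pool.Agent.R482.ST.ex_pow, Pool.Agent.R482.ST.ex_orbit⟩
  classical
  obtain ⟨C, hC⟩ := RandomSystems.result A hA
  have hm : 1 ≤ ∑ j, (A j).card := by
    have h1 : (A ⟨0, hk⟩).card ≤ ∑ j, (A j).card := Finset.single_le_sum (f := fun j => (A j).card)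
      (fun j _ => Nat.zero_le _) (Finset.mem_univ (⟨0, hk⟩ : Fin k))
    have h2 : 1 ≤ (A ⟨0, hk⟩).card := Finset.card_pos.2 ⟨0, hA _⟩
    omega
  have hm' : (0 : ℝ) ≤ ((∑ j, (A j).card : ℕ) : ℝ) - 1 := by
    have : (1 : ℝ) ≤ ((∑ j, (A j).card : ℕ) : ℝ) := by exact_mod_cast hm
    linarith
  refine ⟨?_, fun G hG => ?_⟩
  · obtain ⟨E, hE, h⟩ := Pool.Agent.R482.ST.vec_prop (ι := Coeff A)
      (fun z X => ¬ (ExpectedDim A z ∧ ∀ Δ : ℕ, (Δ : ℝ) ≤ (max X 0) ^ κ →
        ∀ (r : ℕ) (Z : Special n r), (∀ i, (Z.mat i).det ≤ Δ) →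
          (∀ i, Z.cls i = none → SpecialPoint Δ (Z.const i)) → TypicalOn A z Z))
      (fun z X Y hXY h hcon => h ⟨hcon.1, fun Δ h1 => hcon.2 Δ (h1.trans (Real.rpow_le_rpow (le_max_right _ _)
        (max_le_max hXY le_rfl) hκ.le))⟩)
      (s := ((∑ j, (A j).card : ℕ) : ℝ) - 1 + κ * (17 * n)) (by positivity) (fun ε hε => by
        refine ⟨(C : ℝ) * 3 ^ (∑ j, (A j).card), fun H hH => ?_⟩
        have hH1 : (1 : ℝ) ≤ H := by exact_mod_cast hH
        have hHκ : (1 : ℝ) ≤ (H : ℝ) ^ κ := Real.one_le_rpow hH1 hκ.le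
        have hΔ1 : 1 ≤ ⌊(H : ℝ) ^ κ⌋₊ := Nat.le_floor (by exact_mod_cast hHκ)
        obtain ⟨⟨E, hE1, hE2⟩, -⟩ := hC H ⌊(H : ℝ) ^ κ⌋₊ hΔ1
        have hsub : {z : Coeff A → ℤ | (∀ i, |z i| ≤ (H : ℤ)) ∧ ¬ (ExpectedDim A z ∧
            ∀ Δ : ℕ, (Δ : ℝ) ≤ (max (H : ℝ) 0) ^ κ → ∀ (r : ℕ) (Z : Special n r), (∀ i, (Z.mat i).det ≤ Δ) →
              (∀ i, Z.cls i = none → SpecialPoint Δ (Z.const i)) → TypicalOn A z Z)} ⊆ (E : Set (Coeff A → ℤ)) := by
          rintro z ⟨h1, h2⟩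
          by_contra hcon
          obtain ⟨h3, h4⟩ := hE2 z h1 hcon
          refine h2 ⟨h3, fun Δ h5 r Z h6 h7 => ?_⟩
          rw [max_eq_left (by linarith)] at h5
          have h8 : Δ ≤ ⌊(H : ℝ) ^ κ⌋₊ := Nat.le_floor h5
          exact h4 r Z (fun i => (h6 i).trans (by exact_mod_cast h8)) (fun i hi => special_mono h8 (h7 i hi))
        have h9 := Set.ncard_le_ncard hsub (Finset.finite_toSet _)
        rw [Set.ncard_coe_finset] at h9
        refine (Nat.cast_le.2 h9).trans ?_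
        have h10 := Pool.Agent.R482.ST.count_bound (κ := κ) hH (Nat.floor_le (by positivity)) hm hE1
        refine h10.trans (mul_le_mul_of_nonneg_left ?_ (by positivity))
        apply Real.rpow_le_rpow_of_exponent_le hH1
        push_cast
        linarith) f a₀ τ θ hf hτ hv hθ
    refine ⟨E, hE, fun u hu huE c => ?_⟩
    obtain ⟨l₀, hl⟩ := h u hu huE c
    refine ⟨l₀, fun l hl1 z hz => ?_⟩
    have hpos : 0 < f l ‖u‖ := (hf.2 l _ _ hu le_rfl).1
    have h1 := not_not.1 (hl l hl1 z hz)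
    rw [max_eq_left hpos.le] at h1
    exact h1
  · have hone : ∀ F : Finset ℂ, ∃ E : Set (Coeff A → ℝ),
        dimH E ≤ ENNReal.ofReal ((((∑ j, (A j).card : ℕ) : ℝ) - 1 + κ * (14 * n) + τ) / (1 - θ)) ∧
        ∀ u : Coeff A → ℝ, a₀ < ‖u‖ → u ∉ E → ∀ c : ℝ, ∃ l₀ : ℕ, ∀ l : ℕ, l₀ ≤ l → ∀ z : Coeff A → ℤ,
          Near (f l) (c * (f l ‖u‖) ^ θ) u z → ∀ Δ : ℕ, (Δ : ℝ) ≤ (f l ‖u‖) ^ κ →
            ∀ (r : ℕ) (Z : Special n r), (∀ i, (Z.mat i).det ≤ Δ) →
              (∀ i, Z.cls i = none → Z.const i ∈ F) → TypicalOn A z Z := by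
      intro F
      obtain ⟨E, hE, h⟩ := Pool.Agent.R482.ST.vec_prop (ι := Coeff A)
        (fun z X => ¬ (∀ Δ : ℕ, (Δ : ℝ) ≤ (max X 0) ^ κ →
          ∀ (r : ℕ) (Z : Special n r), (∀ i, (Z.mat i).det ≤ Δ) →
            (∀ i, Z.cls i = none → Z.const i ∈ F) → TypicalOn A z Z))
        (fun z X Y hXY h hcon => h fun Δ h1 => hcon Δ (h1.trans (Real.rpow_le_rpow (le_max_right _ _)
          (max_le_max hXY le_rfl) hκ.le)))
        (s := ((∑ j, (A j).card : ℕ) : ℝ) - 1 + κ * (14 * n)) (by positivity) (fun ε hε => by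
          refine ⟨((C * (F.card + 1) ^ n : ℕ) : ℝ) * 3 ^ (∑ j, (A j).card), fun H hH => ?_⟩
          have hH1 : (1 : ℝ) ≤ H := by exact_mod_cast hH
          have hHκ : (1 : ℝ) ≤ (H : ℝ) ^ κ := Real.one_le_rpow hH1 hκ.le
          have hΔ1 : 1 ≤ ⌊(H : ℝ) ^ κ⌋₊ := Nat.le_floor (by exact_mod_cast hHκ)
          obtain ⟨-, hG2⟩ := hC H ⌊(H : ℝ) ^ κ⌋₊ hΔ1
          obtain ⟨E, hE1, hE2⟩ := hG2 F
          have hsub : {z : Coeff A → ℤ | (∀ i, |z i| ≤ (H : ℤ)) ∧ ¬ (∀ Δ : ℕ, (Δ : ℝ) ≤ (max (H : ℝ) 0) ^ κ →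
              ∀ (r : ℕ) (Z : Special n r), (∀ i, (Z.mat i).det ≤ Δ) →
                (∀ i, Z.cls i = none → Z.const i ∈ F) → TypicalOn A z Z)} ⊆ (E : Set (Coeff A → ℤ)) := by
            rintro z ⟨h1, h2⟩
            by_contra hcon
            obtain ⟨h3, h4⟩ := hE2 z h1 hcon
            refine h2 fun Δ h5 r Z h6 h7 => ?_
            rw [max_eq_left (by linarith)] at h5
            have h8 : Δ ≤ ⌊(H : ℝ) ^ κ⌋₊ := Nat.le_floor h5
            exact h4 r Z (fun i => (h6 i).trans (by exact_mod_cast h8)) h7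
          have h9 := Set.ncard_le_ncard hsub (Finset.finite_toSet _)
          rw [Set.ncard_coe_finset] at h9
          refine (Nat.cast_le.2 h9).trans ?_
          have h10 := Pool.Agent.R482.ST.count_bound (κ := κ) hH (Nat.floor_le (by positivity)) hm hE1
          refine h10.trans (mul_le_mul_of_nonneg_left ?_ (by positivity))
          apply Real.rpow_le_rpow_of_exponent_le hH1
          push_cast
          linarith) f a₀ τ θ hf hτ hv hθ
      refine ⟨E, hE, fun u hu huE c => ?_⟩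
      obtain ⟨l₀, hl⟩ := h u hu huE c
      refine ⟨l₀, fun l hl1 z hz => ?_⟩
      have hpos : 0 < f l ‖u‖ := (hf.2 l _ _ hu le_rfl).1
      have h1 := not_not.1 (hl l hl1 z hz)
      rw [max_eq_left hpos.le] at h1
      exact h1
    choose E hE1 hE2 using hone
    have hcount : {F : Finset ℂ | (F : Set ℂ) ⊆ G}.Countable := by
      have h1 : {t : Set ℂ | t.Finite ∧ t ⊆ G}.Countable := Set.countable_ofPred_finite_subset hG
      refine (h1.preimage_of_injOn (f := fun F : Finset ℂ => (F : Set ℂ)) Finset.coe_injective.injOn).mono ?_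
      intro F hF
      exact ⟨F.finite_toSet, hF⟩
    refine ⟨⋃ F ∈ {F : Finset ℂ | (F : Set ℂ) ⊆ G}, E F, ?_, fun u hu huE F hF => hE2 F u hu fun h =>
      huE (Set.mem_biUnion (x := F) hF h)⟩
    rw [dimH_bUnion hcount]
    exact iSup₂_le fun F _ => hE1 F

end Pool.Agent.Results.MP_130685_nt.StarshapedSystems
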