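import Pool.Agent.R424.TG.Few

/-!
# MP_130685_nt: Zilber-Pink for all but very few rational members of arbitrary families, from their
tropicalizations

The Shimura variety `Y(1)^n` is identified with `ℂ^n` by the elliptic modular function
`jj = j = E₄³ / Δ`. The problem is the case `k = 0` of the following theorem on `Y(1)^n × G_m^k`.

**Families.** Let `K ⊂ ℂ` be a countable field and let `P` be an arbitrary finite system of polynomials
with coefficients in `K[t]`, in `n` modular coordinates, `k` torus coordinates and `N` auxiliary
coordinates. The member `X_t` (`member`) is the set of the points `x` of `Y(1)^n × G_m^k` for which
there is a `y ∈ ℂ^N` such that all polynomials of the system vanish at `(x, y)`, for the given `t`.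
So `(X_t)` can be any one-parameter family of subvarieties, or of their images under algebraic maps or
correspondences.

**Tropicalization.** For `α ∈ ℂ` the set `Trop α P` consists of the points `w` of `(ℚ ∪ {∞})^(n+k+N)`
such that for every polynomial of the system the minimum of the numbers `ord_α (coefficient) + β · w`
(over the exponents `β` of its monomials) is attained at two different exponents or is infinite.

**Types of special subvarieties.** The product `Z × C` of a special subvariety `Z` of `Y(1)^n` and a
coset `C` of an algebraic subgroup of the torus has a type `(cls, d, L)`: the partition `cls` of the
coordinates of `Y(1)^n` which are not constant on `Z` into `r = dim Z` classes, the determinants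
`d_i > 0` of the matrices which define `Z`, and the linear subspace `L` of `ℚ^k`, of dimension `dim C`,
which is orthogonal to the characters constant on `C`. A point `w` is compatible with the type
(`Compatible`) if `w_i ≥ 0` for the constant coordinates, for coordinates `i`, `j` in the same class
either `w_i ≥ 0` and `w_j ≥ 0`, or `w_i < 0`, `w_j < 0` and `d_i d_j w_i w_j` is the square of a rational
number, and the torus coordinates of `w` are a vector in `L`.

**Theorem.** Let `m` be an integer (the dimension of the members) and `D` a finite set of algebraic
numbers, of arbitrary degrees, such that for every type of dimension `r + dim L < n + k - m` there is at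
least one `α` in `D` such that `Trop α P` contains no compatible point (`Generic`). Then there are
constants `C` and `s` such that for all `B ≥ 2` and `v ≤ B`, for instance `v = 1`, all but at most
`C (log B)^s` of the rational numbers `t` with denominator `v` and numerator at most `B` in absolute
value have the following property: `X_t` has no atypical intersection with the products `Z × C`
(`NoAtypical`), that is, every irreducible closed subset of `X_t ∩ (Z × C)` has dimension at most
`dim (Z × C) + m - (n + k)`, and the same bound holds for the transcendence degrees of the points of
`X_t ∩ (Z × C)` over `K`. The constant coordinates of `Z` can be special points or integral over the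
ring `ℤ[Γ]` generated by a given finite set `Γ` of numbers algebraic over `K`, and `C` is a coset by a
point whose coordinates are units over `ℤ[Γ]`, for instance a torsion coset.

So in every sequence of integers with counting function larger than all powers of `log B`, for instance
for the primes or the values of a polynomial, almost all terms `t` are such that `X_t` has no atypical
intersection. The starting file `IntegralParameters` treats families of the special form
`c_i(t) s_i = A_i(y) / B_i(y)` in `Y(1)^n`, where at all roots of `n (n - 1) / 2 + 1` polynomials no
point lies on `m + 1` of the divisors of the `A_i / B_i` and all `c_i` vanish, with independent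
orders. Here the family is arbitrary, and different degenerate members can exclude different types of
special subvarieties. For tori this is `MP_b7926e_nt.FewExceptionalParameters`.

The proof: if the value at `t` of the minimal polynomial of `α` has a large prime factor then there
is a valuation ring of `ℂ` in which `t` is near to `α`, and such that given algebraically independent
coordinates of a point of `X_t ∩ (Z × C)` are units. The values of the coordinates of the point can
be replaced by rational numbers, by linear programming, and this gives a point of `Trop α P`, which is
compatible with a type of dimension less than that of `Z × C` by the number of the independent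
coordinates. For all but few `t` this holds for all `α` in `D`.
-/

set_option autoImplicit false

namespace Pool.Agent.Results.MP_130685_nt.TropicalFewExceptions

open MvPolynomial Pool.Agent.R424.TG
open Pool.Agent.Y152.RP.FamM (NoAtypical)

/-- **The tropical criterion** for all but few rational members of arbitrary one-parameter families
of subvarieties of `Y(1)^n × G_m^k`. -/
theorem result (K : Subfield ℂ) [Countable K] (κ : Type) [Finite κ] (n k N m : ℕ)
    (P : κ → MvPolynomial ((Fin n ⊕ Fin k) ⊕ Fin N) (Polynomial K)) (D : Finset ℂ)
    (hD : ∀ α ∈ D, IsAlgebraic ℚ α) (hgen : Generic m 1 P D)
    (Γ : Finset ℂ) (hΓ : ∀ γ ∈ Γ, IsAlgebraic K γ) :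
    ∃ C s : ℕ, ∀ B v : ℕ, 2 ≤ B → v ≤ B → ∀ T : Finset ℚ,
      (∀ t ∈ T, t.den = v ∧ |t.num| ≤ B ∧
        ¬ NoAtypical (algebraMap (Algebra.adjoin ℤ (Γ : Set ℂ)) ℂ) K m (member (t : ℂ) P)) →
      (T.card : ℝ) ≤ C * Real.log B ^ s :=
  fewT K κ n k N m P D hD Γ hΓ hgen

end Pool.Agent.Results.MP_130685_nt.TropicalFewExceptions
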